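import Pool.Agent.Helper44.GH.Stmts

/-!
# The moments of the marginals (MP_d210aa_gt)
-/

open Finset MeasureTheory Filter Topology Matrix
open scoped ENNReal ContDiff

namespace Pool.Agent.Helper44.GH

open Pool.Agent.Helper44.GF Pool.Agent.Helper44.GN

namespace MOMaux

/-- The density of the three dimensional norm. -/
noncomputable def d3 (h t : ℝ) : ℝ :=
  4 / √Real.pi * h ^ (-(3 / 2) : ℝ) * t ^ 2 * Real.exp (-(t ^ 2 / h))

/-- The density of the one dimensional Gaussian. -/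
noncomputable def d1 (h t : ℝ) : ℝ :=
  1 / √Real.pi * h ^ (-(1 / 2) : ℝ) * Real.exp (-(t ^ 2 / h))

theorem gauss_int {h : ℝ} (hh : 0 < h) {s : ℝ} (hs : -1 < s) :
    IntegrableOn (fun t : ℝ => t ^ s * Real.exp (-(t ^ 2 / h))) (Set.Ioi 0) ∧
    ∫ t in Set.Ioi (0 : ℝ), t ^ s * Real.exp (-(t ^ 2 / h))
      = 1 / 2 * Real.Gamma ((s + 1) / 2) * h ^ ((s + 1) / 2) := by
  have hb : (0 : ℝ) < h⁻¹ := inv_pos.mpr hh
  have e1 : ∀ t : ℝ, Real.exp (-(t ^ 2 / h)) = Real.exp (-h⁻¹ * t ^ 2) := by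
    intro t
    congr 1
    ring
  constructor
  · have h1 := integrableOn_rpow_mul_exp_neg_mul_sq hb hs
    refine h1.congr_fun (fun t ht => ?_) measurableSet_Ioi
    simp only [e1]
  · have h1 := integral_rpow_mul_exp_neg_mul_rpow (p := 2) (q := s) (b := h⁻¹) two_pos hs hb
    have h2 : ∫ t in Set.Ioi (0 : ℝ), t ^ s * Real.exp (-(t ^ 2 / h))
        = ∫ t in Set.Ioi (0 : ℝ), t ^ s * Real.exp (-h⁻¹ * t ^ (2 : ℝ)) := by
      refine setIntegral_congr_fun measurableSet_Ioi (fun t ht => ?_)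
      simp only [e1]
      congr 2
      norm_cast
    rw [h2, h1]
    have h3 : (h⁻¹) ^ (-(s + 1) / 2) = h ^ ((s + 1) / 2) := by
      rw [Real.inv_rpow hh.le, ← Real.rpow_neg hh.le]
      congr 1
      ring
    rw [h3]
    ring

theorem d3_int {h : ℝ} (hh : 0 < h) {q : ℝ} (hq : -1 < q) :
    IntegrableOn (fun t : ℝ => t ^ q * d3 h t) (Set.Ioi 0) ∧
    ∫ t in Set.Ioi (0 : ℝ), t ^ q * d3 h t
      = 2 * (q + 1) * (1 / (2 * √Real.pi) * Real.Gamma ((q + 1) / 2) * h ^ (q / 2)) := by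
  have hg := gauss_int hh (s := q + 2) (by linarith)
  have e1 : ∀ t ∈ Set.Ioi (0 : ℝ), t ^ q * d3 h t
      = (4 / √Real.pi * h ^ (-(3 / 2) : ℝ)) * (t ^ (q + 2) * Real.exp (-(t ^ 2 / h))) := by
    intro t ht
    have ht' : (0 : ℝ) < t := ht
    have : t ^ (q + 2) = t ^ q * t ^ 2 := by
      rw [Real.rpow_add ht']
      congr 1
      norm_cast
    rw [this, d3]
    ring
  constructor
  · refine IntegrableOn.congr_fun (hg.1.const_mul (4 / √Real.pi * h ^ (-(3 / 2) : ℝ)))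
      (fun t ht => ?_) measurableSet_Ioi
    exact (e1 t ht).symm
  · rw [setIntegral_congr_fun measurableSet_Ioi e1, integral_const_mul, hg.2]
    have hG : Real.Gamma ((q + 2 + 1) / 2) = (q + 1) / 2 * Real.Gamma ((q + 1) / 2) := by
      rw [← Real.Gamma_add_one (by linarith [hq] : (q + 1) / 2 ≠ 0)]
      congr 1
      ring
    have hp : h ^ (-(3 / 2) : ℝ) * h ^ ((q + 2 + 1) / 2) = h ^ (q / 2) := by
      rw [← Real.rpow_add hh]
      congr 1
      ring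
    have hpi : √Real.pi ≠ 0 := by positivity
    calc 4 / √Real.pi * h ^ (-(3 / 2) : ℝ)
          * (1 / 2 * Real.Gamma ((q + 2 + 1) / 2) * h ^ ((q + 2 + 1) / 2))
        = 4 / √Real.pi * (1 / 2 * Real.Gamma ((q + 2 + 1) / 2))
          * (h ^ (-(3 / 2) : ℝ) * h ^ ((q + 2 + 1) / 2)) := by ring
      _ = 2 * (q + 1) * (1 / (2 * √Real.pi) * Real.Gamma ((q + 1) / 2) * h ^ (q / 2)) := by
        rw [hG, hp]
        field_simp
        ring

theorem d1_int {h : ℝ} (hh : 0 < h) {q : ℝ} (hq : -1 < q) :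
    IntegrableOn (fun t : ℝ => t ^ q * d1 h t) (Set.Ioi 0) ∧
    ∫ t in Set.Ioi (0 : ℝ), t ^ q * d1 h t
      = 1 / (2 * √Real.pi) * Real.Gamma ((q + 1) / 2) * h ^ (q / 2) := by
  have hg := gauss_int hh (s := q) hq
  have e1 : ∀ t ∈ Set.Ioi (0 : ℝ), t ^ q * d1 h t
      = (1 / √Real.pi * h ^ (-(1 / 2) : ℝ)) * (t ^ q * Real.exp (-(t ^ 2 / h))) := by
    intro t ht
    rw [d1]
    ring
  constructor
  · refine IntegrableOn.congr_fun (hg.1.const_mul (1 / √Real.pi * h ^ (-(1 / 2) : ℝ)))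
      (fun t ht => ?_) measurableSet_Ioi
    exact (e1 t ht).symm
  · rw [setIntegral_congr_fun measurableSet_Ioi e1, integral_const_mul, hg.2]
    have hp : h ^ (-(1 / 2) : ℝ) * h ^ ((q + 1) / 2) = h ^ (q / 2) := by
      rw [← Real.rpow_add hh]
      congr 1
      ring
    have hpi : √Real.pi ≠ 0 := by positivity
    calc 1 / √Real.pi * h ^ (-(1 / 2) : ℝ)
          * (1 / 2 * Real.Gamma ((q + 1) / 2) * h ^ ((q + 1) / 2))
        = 1 / √Real.pi * (1 / 2 * Real.Gamma ((q + 1) / 2))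
          * (h ^ (-(1 / 2) : ℝ) * h ^ ((q + 1) / 2)) := by ring
      _ = 1 / (2 * √Real.pi) * Real.Gamma ((q + 1) / 2) * h ^ (q / 2) := by
        rw [hp]
        field_simp

theorem main {E : Type} [Fintype E] (w h : E → ℝ) (hw : ∀ e, 0 < w e) (h1 : ∑ e, w e = 1)
    (hh : ∀ e, 0 < h e) :
    (∀ q : ℝ, -1 < q → IntegrableOn (fun t => t ^ q * ∑ e, w e * d3 (h e) t) (Set.Ioi 0)) ∧
    (∀ q : ℝ, -1 < q → IntegrableOn (fun t => t ^ q * ∑ e, w e * d1 (h e) t) (Set.Ioi 0)) ∧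
    (∀ q : ℝ, -1 < q → 0 < ∫ t in Set.Ioi (0 : ℝ), t ^ q * ∑ e, w e * d1 (h e) t) ∧
    (∀ q : ℝ, -1 < q → ∫ t in Set.Ioi (0 : ℝ), t ^ q * ∑ e, w e * d3 (h e) t
      = 2 * (q + 1) * ∫ t in Set.Ioi (0 : ℝ), t ^ q * ∑ e, w e * d1 (h e) t) ∧
    ∫ t in Set.Ioi (0 : ℝ), t ^ (0 : ℝ) * ∑ e, w e * d3 (h e) t = 1 := by
  have e3 : ∀ q : ℝ, (fun t => t ^ q * ∑ e, w e * d3 (h e) t)
      = fun t => ∑ e, w e * (t ^ q * d3 (h e) t) := by
    intro q
    funext t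
    rw [Finset.mul_sum]
    refine Finset.sum_congr rfl fun e _ => ?_
    ring
  have e1 : ∀ q : ℝ, (fun t => t ^ q * ∑ e, w e * d1 (h e) t)
      = fun t => ∑ e, w e * (t ^ q * d1 (h e) t) := by
    intro q
    funext t
    rw [Finset.mul_sum]
    refine Finset.sum_congr rfl fun e _ => ?_
    ring
  have i3 : ∀ q : ℝ, -1 < q → ∫ t in Set.Ioi (0 : ℝ), t ^ q * ∑ e, w e * d3 (h e) t
      = ∑ e, w e * (2 * (q + 1)
        * (1 / (2 * √Real.pi) * Real.Gamma ((q + 1) / 2) * (h e) ^ (q / 2))) := by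
    intro q hq
    rw [e3, integral_finsetSum _ fun e _ => ((d3_int (hh e) hq).1.const_mul (w e))]
    refine Finset.sum_congr rfl fun e _ => ?_
    rw [integral_const_mul, (d3_int (hh e) hq).2]
  have i1 : ∀ q : ℝ, -1 < q → ∫ t in Set.Ioi (0 : ℝ), t ^ q * ∑ e, w e * d1 (h e) t
      = ∑ e, w e * (1 / (2 * √Real.pi) * Real.Gamma ((q + 1) / 2) * (h e) ^ (q / 2)) := by
    intro q hq
    rw [e1, integral_finsetSum _ fun e _ => ((d1_int (hh e) hq).1.const_mul (w e))]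
    refine Finset.sum_congr rfl fun e _ => ?_
    rw [integral_const_mul, (d1_int (hh e) hq).2]
  have hne : (Finset.univ : Finset E).Nonempty := by
    by_contra hcon
    rw [Finset.not_nonempty_iff_eq_empty] at hcon
    rw [hcon] at h1
    simp at h1
  refine ⟨fun q hq => ?_, fun q hq => ?_, fun q hq => ?_, fun q hq => ?_, ?_⟩
  · rw [e3]
    exact integrable_finsetSum _ fun e _ => ((d3_int (hh e) hq).1.const_mul (w e))
  · rw [e1]
    exact integrable_finsetSum _ fun e _ => ((d1_int (hh e) hq).1.const_mul (w e))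
  · rw [i1 q hq]
    refine Finset.sum_pos (fun e _ => ?_) hne
    have hG : 0 < Real.Gamma ((q + 1) / 2) := Real.Gamma_pos_of_pos (by linarith)
    have := hw e
    have := hh e
    positivity
  · rw [i3 q hq, i1 q hq, Finset.mul_sum]
    refine Finset.sum_congr rfl fun e _ => ?_
    ring
  · rw [i3 0 (by norm_num)]
    have : ∀ e, w e * (2 * (0 + 1)
        * (1 / (2 * √Real.pi) * Real.Gamma ((0 + 1) / 2) * (h e) ^ ((0 : ℝ) / 2))) = w e := by
      intro e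
      have hpi : √Real.pi ≠ 0 := by positivity
      rw [show ((0 : ℝ) + 1) / 2 = 1 / 2 by norm_num, Real.Gamma_one_half_eq, zero_div,
        Real.rpow_zero]
      field_simp
      ring
    rw [Finset.sum_congr rfl fun e _ => this e, h1]

theorem ber_cons (hB : ST_BER) (f : ℝ → ℝ) (f0 : ∀ t, 0 < t → 0 < f t)
    (fc : ContinuousOn f (Set.Ioi 0))
    (fl : ∀ t u a b : ℝ, 0 < t → 0 < u → 0 < a → 0 < b → a + b = 1 →
      f t ^ a * f u ^ b ≤ f (a * t + b * u))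
    (fi : ∀ q : ℝ, -1 < q → IntegrableOn (fun t => t ^ q * f t) (Set.Ioi 0))
    (fp : ∀ q : ℝ, -1 < q → 0 < ∫ t in Set.Ioi (0 : ℝ), t ^ q * f t)
    (M : ℝ → ℝ) (hM : ∀ q : ℝ, -1 < q → M q = 2 * (q + 1) * ∫ t in Set.Ioi (0 : ℝ), t ^ q * f t)
    (hM0 : M 0 = 1) :
    M (1 / 3) * M (-(1 / 3)) ≤ Real.Gamma (7 / 3) * Real.Gamma (5 / 3) ∧
    M (2 / 3) ≤ Real.Gamma (8 / 3) / Real.Gamma (7 / 3) ^ 2 * M (1 / 3) ^ 2 ∧
    M (-(2 / 3)) * M (1 / 3) ^ 2 ≤ Real.Gamma (4 / 3) * Real.Gamma (7 / 3) ^ 2 := by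
  obtain ⟨N, hN⟩ : ∃ N : ℝ → ℝ, ∀ q, N q
      = (∫ t in Set.Ioi (0 : ℝ), t ^ q * f t) / Real.Gamma (q + 1) := ⟨_, fun q => rfl⟩
  have hNp : ∀ q : ℝ, -1 < q → 0 < N q := by
    intro q hq
    rw [hN]
    exact div_pos (fp q hq) (Real.Gamma_pos_of_pos (by linarith))
  have hMN : ∀ q : ℝ, -1 < q → M q = 2 * Real.Gamma (q + 2) * N q := by
    intro q hq
    have hG : Real.Gamma (q + 2) = (q + 1) * Real.Gamma (q + 1) := by
      rw [← Real.Gamma_add_one (by linarith : q + 1 ≠ 0)]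
      congr 1
      ring
    have hG1 : Real.Gamma (q + 1) ≠ 0 := (Real.Gamma_pos_of_pos (by linarith)).ne'
    rw [hM q hq, hN, hG]
    field_simp
  have hN0 : N 0 = 1 / 2 := by
    have := hMN 0 (by norm_num)
    rw [hM0, show (0 : ℝ) + 2 = 2 by norm_num, Real.Gamma_two] at this
    linarith
  have hBer : ∀ a b c l : ℝ, -1 < a → a < c → 0 < l → l < 1 → b = (1 - l) * a + l * c →
      N a ^ (1 - l) * N c ^ l ≤ N b := by
    intro a b c l h1 h2 h3 h4 h5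
    have := hB f f0 fc fl fi a b c l h1 h2 h3 h4 h5
    rw [hN, hN, hN]
    exact this
  -- three inequalities
  have p1 := hNp (1 / 3) (by norm_num)
  have p2 := hNp (-(1 / 3)) (by norm_num)
  have p3 := hNp (2 / 3) (by norm_num)
  have p4 := hNp (-(2 / 3)) (by norm_num)
  have q1 : N (1 / 3) * N (-(1 / 3)) ≤ 1 / 4 := by
    have h1 := hBer (-(1 / 3)) 0 (1 / 3) (1 / 2) (by norm_num) (by norm_num) (by norm_num)
      (by norm_num) (by norm_num)
    rw [hN0, show (1 : ℝ) - 1 / 2 = 1 / 2 by norm_num, ← Real.mul_rpow p2.le p1.le,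
      ← Real.sqrt_eq_rpow] at h1
    have h2 : N (-(1 / 3)) * N (1 / 3) ≤ (1 / 2) ^ 2 := by
      rw [← Real.sqrt_le_left (by norm_num : (0 : ℝ) ≤ 1 / 2)]
      exact h1
    nlinarith [h2]
  have q2 : N (2 / 3) ≤ 2 * N (1 / 3) ^ 2 := by
    have h1 := hBer 0 (1 / 3) (2 / 3) (1 / 2) (by norm_num) (by norm_num) (by norm_num)
      (by norm_num) (by norm_num)
    rw [hN0, show (1 : ℝ) - 1 / 2 = 1 / 2 by norm_num, ← Real.mul_rpow (by norm_num) p3.le,
      ← Real.sqrt_eq_rpow] at h1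
    have h2 : 1 / 2 * N (2 / 3) ≤ N (1 / 3) ^ 2 := by
      rw [← Real.sqrt_le_left p1.le]
      exact h1
    linarith
  have q3 : N (-(2 / 3)) * N (1 / 3) ^ 2 ≤ 1 / 8 := by
    have h1 := hBer (-(2 / 3)) 0 (1 / 3) (2 / 3) (by norm_num) (by norm_num) (by norm_num)
      (by norm_num) (by norm_num)
    rw [hN0, show (1 : ℝ) - 2 / 3 = 1 / 3 by norm_num] at h1
    have h2 : (N (-(2 / 3)) ^ ((1 : ℝ) / 3) * N (1 / 3) ^ ((2 : ℝ) / 3)) ^ 3 ≤ (1 / 2) ^ 3 := by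
      have h0 : 0 ≤ N (-(2 / 3)) ^ ((1 : ℝ) / 3) * N (1 / 3) ^ ((2 : ℝ) / 3) := by positivity
      exact pow_le_pow_left₀ h0 h1 3
    rw [mul_pow, ← Real.rpow_natCast (N (-(2 / 3)) ^ ((1 : ℝ) / 3)) 3,
      ← Real.rpow_natCast (N (1 / 3) ^ ((2 : ℝ) / 3)) 3, ← Real.rpow_mul p4.le,
      ← Real.rpow_mul p1.le] at h2
    have e1 : N (-(2 / 3)) ^ ((1 : ℝ) / 3 * ((3 : ℕ) : ℝ)) = N (-(2 / 3)) := by
      rw [show (1 : ℝ) / 3 * ((3 : ℕ) : ℝ) = 1 by norm_num, Real.rpow_one]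
    have e2 : N (1 / 3) ^ ((2 : ℝ) / 3 * ((3 : ℕ) : ℝ)) = N (1 / 3) ^ 2 := by
      rw [show (2 : ℝ) / 3 * ((3 : ℕ) : ℝ) = ((2 : ℕ) : ℝ) by norm_num, Real.rpow_natCast]
    rw [e1, e2] at h2
    linarith
  have g1 : 0 < Real.Gamma (7 / 3) := Real.Gamma_pos_of_pos (by norm_num)
  have g2 : 0 < Real.Gamma (5 / 3) := Real.Gamma_pos_of_pos (by norm_num)
  have g3 : 0 < Real.Gamma (8 / 3) := Real.Gamma_pos_of_pos (by norm_num)
  have g4 : 0 < Real.Gamma (4 / 3) := Real.Gamma_pos_of_pos (by norm_num)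
  rw [hMN (1 / 3) (by norm_num), hMN (-(1 / 3)) (by norm_num), hMN (2 / 3) (by norm_num),
    hMN (-(2 / 3)) (by norm_num), show (1 : ℝ) / 3 + 2 = 7 / 3 by norm_num,
    show -((1 : ℝ) / 3) + 2 = 5 / 3 by norm_num, show (2 : ℝ) / 3 + 2 = 8 / 3 by norm_num,
    show -((2 : ℝ) / 3) + 2 = 4 / 3 by norm_num]
  refine ⟨?_, ?_, ?_⟩
  · calc 2 * Real.Gamma (7 / 3) * N (1 / 3) * (2 * Real.Gamma (5 / 3) * N (-(1 / 3)))
        = 4 * (Real.Gamma (7 / 3) * Real.Gamma (5 / 3)) * (N (1 / 3) * N (-(1 / 3))) := by ring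
      _ ≤ 4 * (Real.Gamma (7 / 3) * Real.Gamma (5 / 3)) * (1 / 4) := by gcongr
      _ = Real.Gamma (7 / 3) * Real.Gamma (5 / 3) := by ring
  · calc 2 * Real.Gamma (8 / 3) * N (2 / 3) ≤ 2 * Real.Gamma (8 / 3) * (2 * N (1 / 3) ^ 2) := by
          gcongr
      _ = Real.Gamma (8 / 3) / Real.Gamma (7 / 3) ^ 2
          * (2 * Real.Gamma (7 / 3) * N (1 / 3)) ^ 2 := by
        field_simp
  · calc 2 * Real.Gamma (4 / 3) * N (-(2 / 3)) * (2 * Real.Gamma (7 / 3) * N (1 / 3)) ^ 2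
        = 8 * (Real.Gamma (4 / 3) * Real.Gamma (7 / 3) ^ 2)
          * (N (-(2 / 3)) * N (1 / 3) ^ 2) := by ring
      _ ≤ 8 * (Real.Gamma (4 / 3) * Real.Gamma (7 / 3) ^ 2) * (1 / 8) := by gcongr
      _ = Real.Gamma (4 / 3) * Real.Gamma (7 / 3) ^ 2 := by ring

end MOMaux

open MOMaux in
theorem st_MOM (hU : ST_UPD) (hB : ST_BER) (hL : ST_LCF) : ST_MOM := by
  intro n m Y _ _ s ζ δ r z V hMD hV i hi
  have htau : ∀ η : Finset (Fin n × Y), tau δ r η ∈ Og n := by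
    intro η x
    have h1 : 0 ≤ ∑ y, if (x, y) ∈ η then r y else 0 :=
      Finset.sum_nonneg fun y _ => by
        split_ifs
        · exact (hMD.r0 y).le
        · exact le_rfl
    have := hMD.d0
    show 0 < δ + ∑ y, if (x, y) ∈ η then r y else 0
    linarith
  have hW : ∀ η : Finset (Fin n × Y), 0 < W1 V δ r z η := by
    intro η
    have h1 : 0 < qf V (tau δ r η) := (hU n m V V hV _ (htau η) i 0 le_rfl).2.1
    have h2 : 0 < zw z η := Finset.prod_pos fun x _ => hMD.z0 x.2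
    unfold W1
    positivity
  have hMS : 0 < MS V δ r z := Finset.sum_pos (fun η _ => hW η) ⟨∅, Finset.mem_univ _⟩
  obtain ⟨w, hw⟩ : ∃ w : Finset (Fin n × Y) → ℝ, ∀ η, w η = W1 V δ r z η / MS V δ r z :=
    ⟨_, fun η => rfl⟩
  obtain ⟨h, hh'⟩ : ∃ h : Finset (Fin n × Y) → ℝ, ∀ η, h η = hh V (tau δ r η) i :=
    ⟨_, fun η => rfl⟩
  have w0 : ∀ η, 0 < w η := fun η => by
    rw [hw]
    exact div_pos (hW η) hMS
  have w1 : ∑ η, w η = 1 := by
    simp only [hw]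
    rw [← Finset.sum_div]
    exact div_self hMS.ne'
  have h0 : ∀ η, 0 < h η := by
    intro η
    have h1 := hU n m V V hV _ (htau η) i 0 le_rfl
    rw [hh']
    exact lt_of_le_of_ne h1.2.2.1 fun h2 => hi (h1.2.2.2.1 h2.symm)
  have hp3 : ∀ t, p3 V δ r z i t = ∑ η, w η * d3 (h η) t := by
    intro t
    unfold p3 EX
    rw [Finset.sum_div]
    refine Finset.sum_congr rfl fun η _ => ?_
    rw [hw, hh', d3]
    ring
  have hfd : ∀ t, fd V δ r z i t = ∑ η, w η * d1 (h η) t := by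
    intro t
    unfold fd EX
    rw [Finset.sum_div]
    refine Finset.sum_congr rfl fun η _ => ?_
    rw [hw, hh', d1]
    ring
  obtain ⟨m1, m2, m3, m4, m5⟩ := MOMaux.main w h w0 w1 h0
  obtain ⟨l1, l2, l3⟩ := hL n m Y s ζ δ r z V hMD hV i hi
  have hp3' : p3 V δ r z i = fun t => ∑ η, w η * d3 (h η) t := funext hp3
  have hfd' : fd V δ r z i = fun t => ∑ η, w η * d1 (h η) t := funext hfd
  have hmo : ∀ q, mo V δ r z i q
      = ∫ t in Set.Ioi (0 : ℝ), t ^ q * ∑ η, w η * d3 (h η) t := by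
    intro q
    unfold mo
    rw [hp3']
  have hmo2 : ∀ q : ℝ, -1 < q → mo V δ r z i q
      = 2 * (q + 1) * ∫ t in Set.Ioi (0 : ℝ), t ^ q * fd V δ r z i t := by
    intro q hq
    rw [hmo, m4 q hq, hfd']
  have hfp : ∀ q : ℝ, -1 < q → 0 < ∫ t in Set.Ioi (0 : ℝ), t ^ q * fd V δ r z i t := by
    intro q hq
    rw [hfd']
    exact m3 q hq
  have hfi : ∀ q : ℝ, -1 < q →
      IntegrableOn (fun t => t ^ q * fd V δ r z i t) (Set.Ioi 0) := by
    intro q hq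
    rw [hfd']
    exact m2 q hq
  have hm0 : mo V δ r z i 0 = 1 := by
    rw [hmo, m5]
  refine ⟨?_, ?_, ?_, ?_, hm0, ?_⟩
  · intro t
    rw [hp3]
    refine Finset.sum_nonneg fun η _ => ?_
    have := w0 η
    have := h0 η
    unfold d3
    positivity
  · rw [hp3']
    refine continuous_finsetSum _ fun η _ => ?_
    unfold d3
    fun_prop
  · intro q hq
    rw [hp3']
    exact m1 q hq
  · intro q hq
    rw [hmo2 q hq]
    have := hfp q hq
    have : 0 < q + 1 := by linarith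
    positivity
  · exact ber_cons hB _ (fun t _ => l1 t) l2.continuousOn l3 hfi hfp (mo V δ r z i) hmo2 hm0

end Pool.Agent.Helper44.GH
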